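import Pool.Agent.MP_7ca887_an.ap.Iff

/-! For 1 < p < ∞ the isomorphism relation between closed subspaces of real ℓ_p, restricted to the
subspaces with the approximation property, is Borel in the square of the Effros structure. -/

set_option autoImplicit false
open scoped ENNReal

namespace Pool.Agent.Results.MP_7ca887_an.ApproxBorel

/-- The approximation property: the identity is a uniform limit on compact sets of bounded
operators of finite rank. -/
def ApproxProp (X : Type) [NormedAddCommGroup X] [NormedSpace ℝ X] : Prop :=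
  ∀ K : Set X, IsCompact K → ∀ ε : ℝ, 0 < ε → ∃ T : X →L[ℝ] X,
    FiniteDimensional ℝ (LinearMap.range (T : X →ₗ[ℝ] X)) ∧ ∀ y ∈ K, ‖T y - y‖ ≤ ε

/-- The closed linear subspaces of `E`. -/
def SB (E : Type) [NormedAddCommGroup E] [NormedSpace ℝ E] : Type :=
  {S : Submodule ℝ E // IsClosed (S : Set E)}

/-- The Effros structure on the closed subspaces of `E`. -/
@[reducible] def effros (E : Type) [NormedAddCommGroup E] [NormedSpace ℝ E] : MeasurableSpace (SB E) :=
  MeasurableSpace.generateFrom {A | ∃ U : Set E, IsOpen U ∧ A = {S | ((S.1 : Set E) ∩ U).Nonempty}}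

/-- The pairs of isomorphic closed subspaces of `E` whose first member has the approximation
property. -/
def isoAP (E : Type) [NormedAddCommGroup E] [NormedSpace ℝ E] : Set (SB E × SB E) :=
  {x | Nonempty (↥x.1.1 ≃L[ℝ] ↥x.2.1) ∧ ApproxProp ↥x.1.1}

theorem result (p : ℝ≥0∞) [Fact (1 ≤ p)] (hp1 : p ≠ 1) (hp : p ≠ ⊤) :
    @MeasurableSet _ ((effros (lp (fun _ : ℕ => ℝ) p)).prod (effros (lp (fun _ : ℕ => ℝ) p)))
      (isoAP (lp (fun _ : ℕ => ℝ) p)) := by
  have := Pool.Agent.MP_7ca887_an.AP.sep hp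
  let M := effros (lp (fun _ : ℕ => ℝ) p)
  have base : ∀ O : Set (lp (fun _ : ℕ => ℝ) p), IsOpen O →
      @MeasurableSet _ M {S | ((S.1 : Set (lp (fun _ : ℕ => ℝ) p)) ∩ O).Nonempty} := fun O hO =>
    MeasurableSpace.measurableSet_generateFrom ⟨O, hO, rfl⟩
  have hit := Pool.Agent.MP_7ca887_an.AP.Hit.prod
    (Ω := SB (lp (fun _ : ℕ => ℝ) p) × SB (lp (fun _ : ℕ => ℝ) p))
    (Z := fun x => (x.1.1 : Set (lp (fun _ : ℕ => ℝ) p)))
    (Z' := fun x => (x.2.1 : Set (lp (fun _ : ℕ => ℝ) p)))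
    (fun O hO => measurable_fst (base O hO)) (fun O hO => measurable_snd (base O hO))
  refine (congrArg _ (Set.ext fun x => ?_)).mpr (Pool.Agent.MP_7ca887_an.AP.good_meas hp hit)
  have c1 : CompleteSpace ↥x.1.1 := x.1.2.completeSpace_coe
  have c2 : CompleteSpace ↥x.2.1 := x.2.2.completeSpace_coe
  have r1 : Set.range x.1.1.subtypeL = (x.1.1 : Set (lp (fun _ : ℕ => ℝ) p)) := Subtype.range_coe
  have r2 : Set.range x.2.1.subtypeL = (x.2.1 : Set (lp (fun _ : ℕ => ℝ) p)) := Subtype.range_coe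
  rw [Set.mem_ofPred_eq, ← r1, ← r2]
  exact ⟨fun h => h.1.elim fun e =>
      Pool.Agent.MP_7ca887_an.AP.good_of hp1 hp (fun _ => rfl) (fun _ => rfl) e h.2,
    Pool.Agent.MP_7ca887_an.AP.of_good hp1 hp (fun _ => rfl) (fun _ => rfl)⟩

/-- The same statement in the shape of the frozen statements. -/
theorem frozen_shape (p : ℝ≥0∞) [Fact (1 ≤ p)] (hp1 : p ≠ 1) (hp : p ≠ ⊤)
    (M : MeasurableSpace
      {S : Submodule ℝ (lp (fun _ : ℕ => ℝ) p) // IsClosed (S : Set (lp (fun _ : ℕ => ℝ) p))})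
    (hM : M = MeasurableSpace.generateFrom
      {A | ∃ U : Set (lp (fun _ : ℕ => ℝ) p), IsOpen U ∧
        A = {S | ((S.1 : Set (lp (fun _ : ℕ => ℝ) p)) ∩ U).Nonempty}}) :
    @MeasurableSet _ (M.prod M) {x | Nonempty (↥x.1.1 ≃L[ℝ] ↥x.2.1) ∧ ApproxProp ↥x.1.1} := by
  rw [hM]; exact result p hp1 hp

/-- Section: the isomorphism class of a subspace with the approximation property is Borel. -/
theorem class_borel (p : ℝ≥0∞) [Fact (1 ≤ p)] (hp1 : p ≠ 1) (hp : p ≠ ⊤)
    (Y : SB (lp (fun _ : ℕ => ℝ) p)) (hY : ApproxProp ↥Y.1) :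
    @MeasurableSet _ (effros (lp (fun _ : ℕ => ℝ) p)) {Z | Nonempty (↥Y.1 ≃L[ℝ] ↥Z.1)} := by
  let M := effros (lp (fun _ : ℕ => ℝ) p)
  have h := measurable_prodMk_left (x := Y) (result p hp1 hp)
  refine (congrArg _ (Set.ext fun Z => ?_)).mpr h
  exact ⟨fun h => And.intro h hY, fun h => And.left h⟩

end Pool.Agent.Results.MP_7ca887_an.ApproxBorel
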